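import Pool.Agent.Q54.EM.StmG

/-!
# Project EM, KKT: the Karush-Kuhn-Tucker condition for a minimiser
-/

set_option autoImplicit false

namespace Pool.Agent.Q151.EM

open Finset Pool.Agent.Q54.EM

open Classical in
/-- the direction used in the KKT argument -/
noncomputable def dirn {ι : Type} (i a i0 : ι) (c : ℝ) : ι → ℝ := fun j =>
  (if j = i then 1 else 0) - c * (if j = a then 1 else 0) + (c - 1) * (if j = i0 then 1 else 0)

lemma sum_dirn {ι : Type} [Fintype ι] (i a i0 : ι) (c : ℝ) (g : ι → ℝ) :
    ∑ j, dirn i a i0 c j * g j = g i - c * g a + (c - 1) * g i0 := by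
  classical
  have e : ∀ j, dirn i a i0 c j * g j = (if j = i then g j else 0) - c * (if j = a then g j else 0) +
      (c - 1) * (if j = i0 then g j else 0) := by
    intro j
    simp only [dirn]
    split_ifs <;> ring
  rw [Finset.sum_congr rfl fun j _ => e j, Finset.sum_add_distrib, Finset.sum_sub_distrib,
    ← Finset.mul_sum, ← Finset.mul_sum]
  simp

lemma sum_lt (n m : ℕ) (c : ℝ) (h : m ≤ n) :
    ∑ i : Fin n, (if (i : ℕ) < m then c else 0) = m * c := by
  rw [Fin.sum_univ_eq_sum_range (fun i => if i < m then c else 0) n]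
  induction n with
  | zero => have : m = 0 := by omega
            subst this; simp
  | succ n ih =>
    rw [Finset.sum_range_succ]
    rcases Nat.lt_or_ge n m with h1 | h1
    · have : m = n + 1 := by omega
      subst this
      rw [if_pos h1]
      have : ∑ i ∈ range n, (if i < n + 1 then c else 0) = ∑ i ∈ range n, c := by
        refine Finset.sum_congr rfl fun i hi => ?_
        rw [if_pos]
        have := Finset.mem_range.mp hi
        omega
      rw [this]
      simp
      ring
    · rw [ih h1, if_neg (by omega), add_zero]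

theorem kkt (hD : S_DER) (hB : S_MB1) (hP : S_PSP) (hT : S_TUP) (hE : S_EEL) : S_KKT := by
  classical
  intro ι _ k r o t p x hk hr hr1 hM hlt
  have hF := hM.1
  have hb1 := hB ι k r o t p x (by omega) hr1 hM
  -- zero atom
  obtain ⟨i0, hi0, hx0⟩ : ∃ i, 0 < p i ∧ x i = 0 := by
    by_contra hc
    push Not at hc
    have : ∑ i, (if 0 < x i then p i else 0) = 1 := by
      rw [← hF.p1]
      refine Finset.sum_congr rfl fun i _ => ?_
      by_cases hi : 0 < x i
      · rw [if_pos hi]
      · rw [if_neg hi]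
        by_contra hp
        exact hc i (lt_of_le_of_ne (hF.p0 i) hp) (le_antisymm (not_lt.mp hi) (hF.x0 i))
    linarith
  obtain ⟨n, rfl⟩ : ∃ n, k = n + 1 := ⟨k - 1, by omega⟩
  rw [Nat.add_sub_cancel]
  -- positivity of P0
  have hP0 : 0 < PR p x n ((n + 1 : ℕ) : ℝ) :=
    hP ι p x (n + 1) n (by omega) (by omega) hF.p0 hF.p1 hF.x0 (by rw [hF.m]; exact hr1)
  -- the derivative identity
  have key : ∀ a i, 0 < p a → 0 < x a → 0 < p i →
      PR p x n ((n + 1 : ℕ) - x i) - x i / x a * PR p x n ((n + 1 : ℕ) - x a) +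
        (x i / x a - 1) * PR p x n ((n + 1 : ℕ) : ℝ) = 0 := by
    intro a i hpa hxa hpi
    obtain ⟨c, hc⟩ : ∃ c, c = x i / x a := ⟨_, rfl⟩
    obtain ⟨d, hd⟩ : ∃ d, d = dirn i a i0 c := ⟨_, rfl⟩
    have hsum : ∀ g : ι → ℝ, ∑ j, d j * g j = g i - c * g a + (c - 1) * g i0 := by
      intro g; rw [hd]; exact sum_dirn i a i0 c g
    have hd0 : ∀ j, d j = 0 ∨ 0 < p j := by
      intro j
      by_cases h1 : j = i
      · right; rw [h1]; exact hpi
      by_cases h2 : j = a
      · right; rw [h2]; exact hpa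
      by_cases h3 : j = i0
      · right; rw [h3]; exact hi0
      · left; rw [hd]; simp only [dirn]; rw [if_neg h1, if_neg h2, if_neg h3]; ring
    have hev : ∀ᶠ u : ℝ in nhds 0, ∀ j, 0 ≤ p j + u * d j := by
      rw [Filter.eventually_all]
      intro j
      rcases hd0 j with h | h
      · refine Filter.Eventually.of_forall fun u => ?_
        rw [h, mul_zero, add_zero]; exact hF.p0 j
      · have hcont : Continuous fun u : ℝ => p j + u * d j := by fun_prop
        have := (hcont.tendsto 0).eventually (lt_mem_nhds (a := 0) (by simpa using h))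
        exact this.mono fun u hu => hu.le
    obtain ⟨f, hf⟩ : ∃ f : ℝ → ℝ, f = fun s => if s < ((n + 1 : ℕ) : ℝ) then 1 else 0 := ⟨_, rfl⟩
    have hder := hD ι p d x n f
    have hmin : IsLocalMin (fun u : ℝ => EE (fun i => p i + u * d i) x (n + 1) f) 0 := by
      filter_upwards [hev] with u hu
      have e0 : (fun i => p i + (0 : ℝ) * d i) = p := by funext i; ring
      rw [e0]
      have hfe : Feas (n + 1) r o t (fun i => p i + u * d i) x := by
        refine Feas.mk hu ?_ hF.x0 hF.xk hF.xo hF.xt ?_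
        · rw [Finset.sum_add_distrib, ← Finset.mul_sum, hF.p1]
          have := hsum (fun _ => 1)
          simp only [mul_one] at this
          rw [this]; ring
        · have h1 : mu (fun i => p i + u * d i) x = mu p x + u * ∑ j, d j * x j := by
            simp only [mu]
            rw [Finset.mul_sum, ← Finset.sum_add_distrib]
            refine Finset.sum_congr rfl fun j _ => ?_
            ring
          rw [h1, hsum, hF.m, hx0, hc]
          have : x i - x i / x a * x a + (x i / x a - 1) * 0 = 0 := by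
            rw [div_mul_cancel₀ _ hxa.ne']; ring
          rw [this]; ring
      have := hM.2 _ _ hfe
      simp only [PR] at this
      rw [hf]
      exact this
    have h0 := hmin.hasDerivAt_eq_zero hder
    have hn : (n + 1 : ℝ) ≠ 0 := by positivity
    have h1 := (mul_eq_zero.mp h0).resolve_left hn
    rw [hsum] at h1
    have e : ∀ j, EE p x n (fun s => f (s + x j)) = PR p x n ((n + 1 : ℕ) - x j) := by
      intro j
      simp only [PR]
      congr 1
      funext s
      rw [hf]
      beta_reduce
      by_cases hs : s + x j < ((n + 1 : ℕ) : ℝ)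
      · rw [if_pos hs, if_pos (by linarith)]
      · rw [if_neg hs, if_neg (by intro h'; exact hs (by linarith))]
    rw [e, e, e, hx0, sub_zero, hc] at h1
    exact h1
  -- an atom with positive weight and value at least 1, with smaller PR
  have ha' : ∃ a, 0 < p a ∧ 0 < x a ∧ PR p x n ((n + 1 : ℕ) - x a) < PR p x n ((n + 1 : ℕ) : ℝ) := by
    have h1 : ∃ v : Fin (n + 1) → ι, (0 < ∏ i, p (v i)) ∧ ((n + 1 : ℕ) : ℝ) ≤ ∑ i, x (v i) := by
      by_contra hc
      push Not at hc
      have e1 : PR p x (n + 1) ((n + 1 : ℕ) : ℝ) = 1 := by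
        have e2 := hT ι p x (n + 1) (fun s => if s < ((n + 1 : ℕ) : ℝ) then 1 else 0)
        have e3 := hT ι p x (n + 1) (fun _ => 1)
        have e4 := (hE ι p x (n + 1)).2.2.2.2.1 hF.p1 1
        rw [e4] at e3
        simp only [PR]
        refine e2.trans (Eq.trans ?_ e3.symm)
        simp only [TE]
        refine Finset.sum_congr rfl fun v _ => ?_
        rcases (Finset.prod_nonneg fun i _ => hF.p0 (v i)).eq_or_lt with h | h
        · rw [← h, zero_mul, zero_mul]
        · rw [if_pos (hc v h)]
      linarith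
    obtain ⟨v, hv1, hv2⟩ := h1
    have h2 : ∃ i, 1 ≤ x (v i) := by
      by_contra hc
      push Not at hc
      have : ∑ i, x (v i) < ∑ _i : Fin (n + 1), (1 : ℝ) :=
        Finset.sum_lt_sum_of_nonempty ⟨0, Finset.mem_univ _⟩ fun i _ => hc i
      simp at this
      push_cast at hv2
      linarith
    obtain ⟨i1, hi1⟩ := h2
    have hpi1 : 0 < p (v i1) := by
      refine lt_of_le_of_ne (hF.p0 _) fun h => ?_
      have : ∏ i, p (v i) = 0 := Finset.prod_eq_zero (Finset.mem_univ i1) h.symm
      linarith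
    refine ⟨v i1, hpi1, by linarith, ?_⟩
    obtain ⟨a, ha⟩ : ∃ a, a = v i1 := ⟨_, rfl⟩
    rw [← ha] at hi1 hpi1 ⊢
    -- j minimal
    have hex : ∃ j : ℕ, ((n + 1 : ℕ) : ℝ) ≤ (j + 1 : ℕ) * x a := ⟨n, by
      have : (0 : ℝ) ≤ ((n + 1 : ℕ) : ℝ) := by positivity
      nlinarith⟩
    obtain ⟨j, hj⟩ : ∃ j, j = Nat.find hex := ⟨_, rfl⟩
    have hj1 : ((n + 1 : ℕ) : ℝ) ≤ (j + 1 : ℕ) * x a := by rw [hj]; exact Nat.find_spec hex
    have hjn : j ≤ n := by
      rw [hj]
      refine Nat.find_min' hex ?_
      have : (0 : ℝ) ≤ ((n + 1 : ℕ) : ℝ) := by positivity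
      nlinarith
    have hj2 : (j : ℝ) * x a < ((n + 1 : ℕ) : ℝ) := by
      rcases Nat.eq_zero_or_pos j with h | h
      · rw [h]; push_cast; have : (0 : ℝ) ≤ n := by positivity
        linarith
      · have hm := Nat.find_min hex (m := j - 1) (by omega)
        rw [not_le] at hm
        have : j - 1 + 1 = j := by omega
        rw [this] at hm
        exact hm
    obtain ⟨w, hw⟩ : ∃ w : Fin n → ι, w = fun i : Fin n => if (i : ℕ) < j then a else i0 := ⟨_, rfl⟩
    have hws : ∑ i, x (w i) = j * x a := by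
      rw [← sum_lt n j (x a) hjn]
      refine Finset.sum_congr rfl fun i _ => ?_
      rw [hw]
      simp only
      split_ifs
      · rfl
      · exact hx0
    have hwp : 0 < ∏ i, p (w i) := by
      refine Finset.prod_pos fun i _ => ?_
      rw [hw]
      simp only
      split_ifs
      · exact hpi1
      · exact hi0
    simp only [PR]
    rw [hT ι p x n, hT ι p x n]
    simp only [TE]
    refine Finset.sum_lt_sum (fun v _ => ?_) ⟨w, Finset.mem_univ _, ?_⟩
    · refine mul_le_mul_of_nonneg_left ?_ (Finset.prod_nonneg fun i _ => hF.p0 _)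
      have := hF.x0 a
      split_ifs <;> first | linarith | norm_num
    · refine mul_lt_mul_of_pos_left ?_ hwp
      rw [hws, if_pos hj2, if_neg]
      · norm_num
      · push_cast at hj1 ⊢
        intro h'
        linarith
  obtain ⟨a, hpa, hxa, hlta⟩ := ha'
  obtain ⟨P0, hP0e⟩ : ∃ P0, P0 = PR p x n ((n + 1 : ℕ) : ℝ) := ⟨_, rfl⟩
  obtain ⟨Pa, hPae⟩ : ∃ Pa, Pa = PR p x n ((n + 1 : ℕ) - x a) := ⟨_, rfl⟩
  rw [← hP0e] at hP0 hlta ⊢
  rw [← hPae] at hlta
  have hb : 0 < (P0 - Pa) / x a := div_pos (by linarith) hxa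
  refine ⟨P0 / ((P0 - Pa) / x a), div_pos hP0 hb, fun i hpi => ?_⟩
  have h := key a i hpa hxa hpi
  rw [← hP0e, ← hPae] at h
  have h2 : PR p x n ((n + 1 : ℕ) - x i) = P0 - (P0 - Pa) / x a * x i := by
    have : (P0 - Pa) / x a * x i = x i / x a * P0 - x i / x a * Pa := by ring
    rw [this]; linarith
  rw [h2]
  have hPa0 : P0 - Pa ≠ 0 := by linarith
  field_simp

end Pool.Agent.Q151.EM
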