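import Pool.Agent.Q54.EM.StmE

/-!
# Project EM, DEC: decomposition by the number of big atoms
-/

set_option autoImplicit false

namespace Pool.Agent.Q151.EM

open Finset Pool.Agent.Q54.EM

lemma EE_congr {ι : Type} [Fintype ι] (p x : ι → ℝ) (hx : ∀ i, 0 ≤ x i) (n : ℕ) :
    ∀ f g : ℝ → ℝ, (∀ s, 0 ≤ s → f s = g s) → EE p x n f = EE p x n g := by
  induction n with
  | zero => intro f g h; exact h 0 le_rfl
  | succ n ih =>
    intro f g h
    simp only [EE]
    refine Finset.sum_congr rfl fun i _ => ?_
    rw [ih (fun s => f (s + x i)) (fun s => g (s + x i)) fun s hs => h _ (add_nonneg hs (hx i))]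

lemma EE_zero {ι : Type} [Fintype ι] (p x : ι → ℝ) (n : ℕ) : EE p x n (fun _ => 0) = 0 := by
  induction n with
  | zero => rfl
  | succ n ih => simp only [EE, ih, mul_zero, Finset.sum_const_zero]

lemma EE_vanish {ι : Type} [Fintype ι] (p x : ι → ℝ) (hx : ∀ i, 0 ≤ x i) (n : ℕ) (f : ℝ → ℝ)
    (h : ∀ s, 0 ≤ s → f s = 0) : EE p x n f = 0 := by
  rw [EE_congr p x hx n f (fun _ => 0) h, EE_zero]

section

variable {ι : Type} [Fintype ι] (p x : ι → ℝ) (k : ℕ)

lemma sw_add_bw (i : ι) : sw k p x i + bw k p x i = p i := by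
  simp only [sw, bw]
  by_cases h : x i ≤ (k : ℝ) / 2
  · rw [if_pos h, if_neg (not_lt.mpr h), add_zero]
  · rw [if_neg h, if_pos (not_le.mp h), zero_add]

lemma bw_ne {i : ι} (h : bw k p x i ≠ 0) : (k : ℝ) / 2 < x i := by
  by_contra hc
  exact h (by simp only [bw]; rw [if_neg hc])

lemma low (hx : ∀ i, 0 ≤ x i) (n : ℕ) :
    ∀ f : ℝ → ℝ, (∀ s, (k : ℝ) / 2 < s → f s = 0) → EE (sw k p x) x n f = EE p x n f := by
  induction n with
  | zero => intro f _; rfl
  | succ n ih =>
    intro f h
    simp only [EE]
    refine Finset.sum_congr rfl fun i _ => ?_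
    by_cases hi : x i ≤ (k : ℝ) / 2
    · rw [ih (fun s => f (s + x i)) fun s hs => h _ (by have := hx i; linarith)]
      simp only [sw]
      rw [if_pos hi]
    · push Not at hi
      rw [EE_vanish p x hx n (fun s => f (s + x i)) fun s hs => h _ (by linarith),
        EE_vanish (sw k p x) x hx n (fun s => f (s + x i)) fun s hs => h _ (by linarith),
        mul_zero, mul_zero]

lemma decomp (hx : ∀ i, 0 ≤ x i) (n : ℕ) :
    ∀ f : ℝ → ℝ, (∀ s, (k : ℝ) ≤ s → f s = 0) →
      EE p x n f = EE (sw k p x) x n f +
        n * ∑ j, bw k p x j * EE (sw k p x) x (n - 1) (fun s => f (s + x j)) := by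
  induction n with
  | zero => intro f _; simp only [EE]; push_cast; ring
  | succ n ih =>
    intro f h
    have e1 : EE p x (n + 1) f = ∑ i, sw k p x i * EE p x n (fun s => f (s + x i)) +
        ∑ i, bw k p x i * EE p x n (fun s => f (s + x i)) := by
      simp only [EE]
      rw [← Finset.sum_add_distrib]
      refine Finset.sum_congr rfl fun i _ => ?_
      rw [← add_mul, sw_add_bw]
    have e2 : ∑ i, bw k p x i * EE p x n (fun s => f (s + x i)) =
        ∑ i, bw k p x i * EE (sw k p x) x n (fun s => f (s + x i)) := by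
      refine Finset.sum_congr rfl fun i _ => ?_
      by_cases hb : bw k p x i = 0
      · rw [hb, zero_mul, zero_mul]
      · rw [low p x k hx n (fun s => f (s + x i)) fun s hs => h _ (by
          have := bw_ne p x k hb; linarith)]
    have e3 : ∑ i, sw k p x i * EE p x n (fun s => f (s + x i)) =
        ∑ i, sw k p x i * EE (sw k p x) x n (fun s => f (s + x i)) +
        n * ∑ j, bw k p x j * ∑ i, sw k p x i *
          EE (sw k p x) x (n - 1) (fun s => f (s + x j + x i)) := by
      have : ∀ i, sw k p x i * EE p x n (fun s => f (s + x i)) =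
          sw k p x i * EE (sw k p x) x n (fun s => f (s + x i)) +
          ∑ j, (n * (bw k p x j * (sw k p x i *
            EE (sw k p x) x (n - 1) (fun s => f (s + x j + x i))))) := by
        intro i
        rw [ih (fun s => f (s + x i)) fun s hs => h _ (by have := hx i; linarith), mul_add]
        congr 1
        rw [Finset.mul_sum, Finset.mul_sum]
        refine Finset.sum_congr rfl fun j _ => ?_
        ring
      rw [Finset.sum_congr rfl fun i _ => this i, Finset.sum_add_distrib, Finset.sum_comm]
      congr 1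
      rw [Finset.mul_sum]
      refine Finset.sum_congr rfl fun j _ => ?_
      rw [Finset.mul_sum, Finset.mul_sum]
    have e4 : (n : ℝ) * ∑ j, bw k p x j * ∑ i, sw k p x i *
          EE (sw k p x) x (n - 1) (fun s => f (s + x j + x i)) =
        n * ∑ j, bw k p x j * EE (sw k p x) x n (fun s => f (s + x j)) := by
      cases n with
      | zero => push_cast; ring
      | succ m =>
        congr 1
        refine Finset.sum_congr rfl fun j _ => ?_
        congr 1
        simp only [EE, Nat.add_sub_cancel]
        refine Finset.sum_congr rfl fun i _ => ?_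
        congr 1
        congr 1
        funext s
        rw [add_right_comm]
    rw [e1, e2, e3, e4, Nat.add_sub_cancel]
    have e5 : EE (sw k p x) x (n + 1) f =
        ∑ i, sw k p x i * EE (sw k p x) x n (fun s => f (s + x i)) := rfl
    rw [e5]
    push_cast
    ring

lemma EE_one (w : ι → ℝ) (n : ℕ) : EE w x n (fun _ => 1) = (∑ i, w i) ^ n := by
  induction n with
  | zero => simp [EE]
  | succ n ih => simp only [EE, ih]; rw [← Finset.sum_mul, pow_succ]; ring

lemma EE_const (w : ι → ℝ) (c : ℝ) (n : ℕ) : EE w x n (fun _ => c) = c * (∑ i, w i) ^ n := by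
  induction n with
  | zero => simp [EE]
  | succ n ih => simp only [EE, ih]; rw [← Finset.sum_mul, pow_succ]; ring

lemma EE_id (hE : S_EEL) (w : ι → ℝ) (n : ℕ) :
    EE w x (n + 1) (fun s => s) = (n + 1 : ℝ) * (∑ j, w j * x j) * (∑ i, w i) ^ n := by
  have step : ∀ m, EE w x (m + 1) (fun s => s) =
      (∑ i, w i) * EE w x m (fun s => s) + (∑ j, w j * x j) * (∑ i, w i) ^ m := by
    intro m
    have : EE w x (m + 1) (fun s => s) = ∑ i, w i * EE w x m (fun s => s + x i) := rfl
    rw [this, Finset.sum_mul, Finset.sum_mul, ← Finset.sum_add_distrib]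
    refine Finset.sum_congr rfl fun i _ => ?_
    rw [(hE ι w x m).1 (fun s => s) (fun _ => x i), EE_const]
    ring
  induction n with
  | zero => rw [step 0]; simp [EE]
  | succ n ih => rw [step (n + 1), ih]; push_cast; ring

end

theorem dec (hE : S_EEL) : S_DEC := by
  intro ι _ p x k hk hL
  have hx := hL.nn
  have hlow : ∀ (n : ℕ) (y : ℝ), y ≤ (k : ℝ) / 2 → PR (sw k p x) x n y = PR p x n y := by
    intro n y hy
    exact low p x k hx n _ fun s hs => if_neg (by linarith)
  have hsum : ∑ i, sw k p x i = 1 - ∑ j, bw k p x j := by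
    rw [eq_sub_iff_add_eq, ← Finset.sum_add_distrib, ← hL.sum]
    exact Finset.sum_congr rfl fun i _ => sw_add_bw p x k i
  refine ⟨hlow, ?_, ?_, ?_⟩
  · have h := decomp p x k hx k (fun s => if s < (k : ℝ) then 1 else 0)
      fun s hs => if_neg (not_lt.mpr hs)
    have e : ∑ j, bw k p x j * EE (sw k p x) x (k - 1) (fun s => if s + x j < (k : ℝ) then 1 else 0) =
        ∑ j, bw k p x j * PR p x (k - 1) (k - x j) := by
      refine Finset.sum_congr rfl fun j _ => ?_
      by_cases hb : bw k p x j = 0
      · rw [hb, zero_mul, zero_mul]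
      · have hj := bw_ne p x k hb
        rw [← hlow (k - 1) (k - x j) (by linarith)]
        congr 1
        simp only [PR]
        congr 1
        funext s
        by_cases hs : s + x j < (k : ℝ)
        · rw [if_pos hs, if_pos (by linarith)]
        · rw [if_neg hs, if_neg (by intro h'; exact hs (by linarith))]
    simp only [PR] at h ⊢ e
    rw [h, e]
  · intro n
    rw [EE_one, hsum]
  · intro n
    rw [EE_id x hE, hsum]

end Pool.Agent.Q151.EM
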