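import Pool.Agent.Q86.EM.Stm3
import Pool.Agent.H888R2.KT.N2
import Pool.Agent.H888R2.KT.N9a

/-!
# Project EM/FS (helper86): job FS-EMP
-/

set_option autoImplicit false

namespace Pool.Agent.Q151.EM

open MeasureTheory Set Filter Topology
open scoped ENNReal InnerProductSpace ContDiff
open Pool.Agent.H888R2.KT (LC)
open Pool.Agent.H212R2.KLS (mu Bdd)
open Pool.Agent.Q86.EM

/-- `S_EMP` with the intended parentheses -/
def S_EMP2 : Prop := ∃ C : ℝ, 0 < C ∧ ∀ (κ : Type) [Fintype κ] (g : Eu κ → ℝ), (∀ x, 0 < g x) →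
  Continuous g → (∀ a b : Eu κ, ∀ t : ℝ, 0 < t → t < 1 →
    g a ^ (1 - t) * g b ^ t ≤ g ((1 - t) • a + t • b)) →
  (Integrable fun x => (1 + ‖x‖) ^ 2 * g x) → ∫ x, g x = 1 → ∀ D : ℝ,
  (∀ f : Eu κ → ℝ, ContDiff ℝ 1 f → (∀ x, ‖fderiv ℝ f x‖ ≤ 1) →
    (∫ x, f x ^ 2 * g x) - (∫ x, f x * g x) ^ 2 ≤ D) →
  ∀ f : Eu κ → ℝ, ContDiff ℝ 1 f → HasCompactSupport f →
    (∫ x, f x ^ 2 * g x) - (∫ x, f x * g x) ^ 2 ≤ C * D * ∫ x, ‖fderiv ℝ f x‖ ^ 2 * g x

section

variable {κ : Type} [Fintype κ]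

/-- the truncated density -/
noncomputable def tr (g : Eu κ → ℝ) (c R : ℝ) (x : Eu κ) : ℝ :=
  c * (Metric.closedBall (0 : Eu κ) R).indicator g x

theorem tr_int {g : Eu κ → ℝ} (hg : ∀ x, 0 < g x) (hgc : Continuous g) {c R : ℝ} (hc : 0 < c)
    (F : Eu κ → ℝ) :
    ∫ x, F x ∂(mu (tr g c R)) = c * ∫ x in Metric.closedBall (0 : Eu κ) R, F x * g x := by
  have hm : Measurable (tr g c R) :=
    (hgc.measurable.indicator Metric.isClosed_closedBall.measurableSet).const_mul c
  have h0 : ∀ x, 0 ≤ tr g c R x := fun x =>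
    mul_nonneg hc.le (indicator_nonneg (fun x _ => (hg x).le) x)
  rw [Pool.Agent.H888R2.KT.N2x.int_mu h0 hm, ← integral_indicator
    Metric.isClosed_closedBall.measurableSet, ← integral_const_mul]
  refine integral_congr_ae (Eventually.of_forall fun x => ?_)
  simp only [tr]
  by_cases hx : x ∈ Metric.closedBall (0 : Eu κ) R
  · rw [indicator_of_mem hx, indicator_of_mem hx]; ring
  · rw [indicator_of_notMem hx, indicator_of_notMem hx]; ring

theorem tr_mass {g : Eu κ → ℝ} (hg : ∀ x, 0 < g x) (hgc : Continuous g) {c R : ℝ} (hc : 0 < c)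
    (h1 : c * ∫ x in Metric.closedBall (0 : Eu κ) R, g x = 1) : mu (tr g c R) univ = 1 := by
  have h0 : ∀ x, 0 ≤ tr g c R x := fun x =>
    mul_nonneg hc.le (indicator_nonneg (fun x _ => (hg x).le) x)
  have hi : Integrable (tr g c R) := by
    unfold tr
    refine Integrable.const_mul ?_ c
    rw [integrable_indicator_iff Metric.isClosed_closedBall.measurableSet]
    exact hgc.continuousOn.integrableOn_compact (isCompact_closedBall _ _)
  unfold mu
  rw [withDensity_apply _ MeasurableSet.univ, Measure.restrict_univ,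
    ← ofReal_integral_eq_lintegral_ofReal hi (Eventually.of_forall h0)]
  have : ∫ x, tr g c R x = 1 := by
    rw [← h1, ← integral_indicator Metric.isClosed_closedBall.measurableSet,
      ← integral_const_mul]
    rfl
  rw [this, ENNReal.ofReal_one]

theorem tr_LC {g : Eu κ → ℝ} (hg : ∀ x, 0 < g x) (hgc : Continuous g)
    (hlc : ∀ a b : Eu κ, ∀ t : ℝ, 0 < t → t < 1 →
      g a ^ (1 - t) * g b ^ t ≤ g ((1 - t) • a + t • b)) {c R : ℝ} (hc : 0 < c)
    (h1 : c * ∫ x in Metric.closedBall (0 : Eu κ) R, g x = 1) : LC (tr g c R) where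
  nonneg := fun x => mul_nonneg hc.le (indicator_nonneg (fun x _ => (hg x).le) x)
  meas := (hgc.measurable.indicator Metric.isClosed_closedBall.measurableSet).const_mul c
  logc := by
    intro x y t h0 h1
    have h1t : 0 < 1 - t := by linarith
    unfold tr
    have hr0 : ∀ z, 0 ≤ (Metric.closedBall (0 : Eu κ) R).indicator g z := fun z =>
      indicator_nonneg (fun x _ => (hg x).le) z
    rw [Real.mul_rpow hc.le (hr0 x), Real.mul_rpow hc.le (hr0 y)]
    have e1 : ∀ p q : ℝ, c ^ (1 - t) * p * (c ^ t * q) = (c ^ (1 - t) * c ^ t) * (p * q) := by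
      intro p q; ring
    have e2 : c ^ (1 - t) * c ^ t = c := by
      rw [← Real.rpow_add hc]
      norm_num
    rw [e1, e2]
    refine mul_le_mul_of_nonneg_left ?_ hc.le
    by_cases hx : x ∈ Metric.closedBall (0 : Eu κ) R
    · by_cases hy : y ∈ Metric.closedBall (0 : Eu κ) R
      · have hxy : (1 - t) • x + t • y ∈ Metric.closedBall (0 : Eu κ) R :=
          (convex_closedBall (0 : Eu κ) R) hx hy h1t.le h0.le (by ring)
        rw [indicator_of_mem hx, indicator_of_mem hy, indicator_of_mem hxy]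
        exact hlc x y t h0 h1
      · rw [indicator_of_notMem hy, Real.zero_rpow h0.ne', mul_zero]
        exact hr0 _
    · rw [indicator_of_notMem hx, Real.zero_rpow h1t.ne', zero_mul]
      exact hr0 _
  bdd := by
    refine ⟨R, fun x hx => ?_⟩
    unfold tr
    rw [indicator_of_notMem, mul_zero]
    rw [mem_closedBall_zero_iff]
    exact not_le.2 hx
  fin := by
    rw [tr_mass hg hgc hc h1]
    exact ENNReal.one_ne_top
  ne := fun h0 => by
    have h2 := tr_mass hg hgc hc h1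
    rw [h0] at h2
    simp at h2

theorem lim_ball {F : Eu κ → ℝ} (hF : Integrable F) :
    Tendsto (fun m : ℕ => ∫ x in Metric.closedBall (0 : Eu κ) m, F x) atTop (𝓝 (∫ x, F x)) := by
  have h := tendsto_setIntegral_of_monotone (μ := (volume : Measure (Eu κ))) (f := F)
    (s := fun m : ℕ => Metric.closedBall (0 : Eu κ) m)
    (fun m => Metric.isClosed_closedBall.measurableSet)
    (fun a b hab => Metric.closedBall_subset_closedBall (by exact_mod_cast hab))
    hF.integrableOn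
  have hu : (⋃ m : ℕ, Metric.closedBall (0 : Eu κ) m) = univ := by
    refine eq_univ_of_forall fun x => mem_iUnion.2 ?_
    obtain ⟨m, hm⟩ := exists_nat_ge ‖x‖
    exact ⟨m, by rw [mem_closedBall_zero_iff]; exact hm⟩
  rw [hu, setIntegral_univ] at h
  exact h

theorem lin_growth {f : Eu κ → ℝ} (hf : ContDiff ℝ 1 f) (h : ∀ x, ‖fderiv ℝ f x‖ ≤ 1) (x : Eu κ) :
    |f x| ≤ |f 0| + ‖x‖ := by
  have h1 : ‖f x - f 0‖ ≤ 1 * ‖x - 0‖ :=
    (convex_univ : Convex ℝ (univ : Set (Eu κ))).norm_image_sub_le_of_norm_fderiv_le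
      (fun y _ => (hf.differentiable one_ne_zero) y) (fun y _ => h y) (mem_univ _) (mem_univ _)
  rw [sub_zero, one_mul, Real.norm_eq_abs] at h1
  calc |f x| = |f 0 + (f x - f 0)| := by congr 1; ring
    _ ≤ |f 0| + |f x - f 0| := abs_add_le _ _
    _ ≤ |f 0| + ‖x‖ := by linarith

end

/-- **job FS-EMP** -/
theorem emp (h : S_EML) : S_EMP2 := by
  obtain ⟨C, hC, H⟩ := h
  refine ⟨C, hC, ?_⟩
  intro κ _ g hg hgc hlc hint hg1 D hD f hf hfs
  have hgi : Integrable g := by
    refine hint.mono hgc.aestronglyMeasurable (Eventually.of_forall fun x => ?_)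
    rw [Real.norm_eq_abs, Real.norm_eq_abs, abs_of_pos (hg x), abs_mul, abs_of_pos (hg x)]
    have h1 : 1 ≤ |(1 + ‖x‖) ^ 2| := by
      have := norm_nonneg x
      rw [abs_of_nonneg (by positivity)]
      nlinarith
    nlinarith [hg x]
  -- growth implies integrability
  have hgr : ∀ (F : Eu κ → ℝ) (B : ℝ), Continuous F → (∀ x, |F x| ≤ B * (1 + ‖x‖) ^ 2) →
      Integrable fun x => F x * g x := by
    intro F B hFc hFB
    refine (hint.const_mul B).mono (hFc.mul hgc).aestronglyMeasurable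
      (Eventually.of_forall fun x => ?_)
    rw [Real.norm_eq_abs, Real.norm_eq_abs, abs_mul, abs_of_pos (hg x), ← mul_assoc, abs_mul,
      abs_of_pos (hg x)]
    exact mul_le_mul_of_nonneg_right ((hFB x).trans (le_abs_self _)) (hg x).le
  obtain ⟨I, hI⟩ : ∃ I : ℕ → ℝ, I = fun m : ℕ => ∫ x in Metric.closedBall (0 : Eu κ) m, g x :=
    ⟨_, rfl⟩
  have hIl : Tendsto I atTop (𝓝 1) := by
    rw [hI, ← hg1]
    exact lim_ball hgi
  have hIpos : ∀ᶠ m in atTop, 0 < I m := hIl.eventually (lt_mem_nhds one_pos)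
  have hinv : Tendsto (fun m => (I m)⁻¹) atTop (𝓝 1) := by
    have := hIl.inv₀ one_ne_zero
    rwa [inv_one] at this
  -- limits of integrals
  have hlim : ∀ F : Eu κ → ℝ, Integrable (fun x => F x * g x) →
      Tendsto (fun m : ℕ => ∫ x, F x ∂(mu (tr g (I m)⁻¹ m))) atTop (𝓝 (∫ x, F x * g x)) := by
    intro F hF
    have h1 := hinv.mul (lim_ball hF)
    rw [one_mul] at h1
    refine h1.congr' ?_
    filter_upwards [hIpos] with m hm
    rw [tr_int hg hgc (inv_pos.2 hm)]
  -- the inequality for the truncated densities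
  have hineq : ∀ᶠ m : ℕ in atTop,
      ∫ x, f x ^ 2 ∂(mu (tr g (I m)⁻¹ m)) - (∫ x, f x ∂(mu (tr g (I m)⁻¹ m))) ^ 2 ≤
        C * ((I m)⁻¹ * D) * ∫ x, ‖fderiv ℝ f x‖ ^ 2 ∂(mu (tr g (I m)⁻¹ m)) := by
    filter_upwards [hIpos] with m hm
    have hm' : 0 < (I m)⁻¹ := inv_pos.2 hm
    have h1 : (I m)⁻¹ * ∫ x in Metric.closedBall (0 : Eu κ) m, g x = 1 := by
      have : ∫ x in Metric.closedBall (0 : Eu κ) m, g x = I m := by rw [hI]
      rw [this, inv_mul_cancel₀ hm.ne']
    have hLC := tr_LC hg hgc hlc hm' h1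
    have hmass := tr_mass hg hgc hm' h1
    have hprob : IsProbabilityMeasure (mu (tr g (I m)⁻¹ m)) := ⟨hmass⟩
    refine H κ _ hLC hmass ((I m)⁻¹ * D) ?_ f hf
    intro u hu hu1
    obtain ⟨c, hc⟩ : ∃ c : ℝ, c = ∫ x, u x * g x := ⟨_, rfl⟩
    have huc : Continuous u := hu.continuous
    have i1 : Integrable (fun x => u x ^ 2) (mu (tr g (I m)⁻¹ m)) :=
      Pool.Agent.H888R2.KT.N9ax.integrable hLC (huc.pow 2)
    have i2 : Integrable u (mu (tr g (I m)⁻¹ m)) :=
      Pool.Agent.H888R2.KT.N9ax.integrable hLC huc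
    have i3 : Integrable (fun x => (u x - c) ^ 2) (mu (tr g (I m)⁻¹ m)) :=
      Pool.Agent.H888R2.KT.N9ax.integrable hLC ((huc.sub continuous_const).pow 2)
    have e1 : ∫ x, (u x - c) ^ 2 ∂(mu (tr g (I m)⁻¹ m)) =
        ∫ x, u x ^ 2 ∂(mu (tr g (I m)⁻¹ m)) - 2 * c * ∫ x, u x ∂(mu (tr g (I m)⁻¹ m)) + c ^ 2 := by
      have e2 : ∀ x, (u x - c) ^ 2 = u x ^ 2 - 2 * c * u x + c ^ 2 := fun x => by ring
      simp_rw [e2]
      rw [integral_add (f := fun x => u x ^ 2 - 2 * c * u x) (i1.sub (i2.const_mul _))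
        (integrable_const _), integral_sub i1 (i2.const_mul _), integral_const_mul, integral_const]
      simp
    have e3 : ∫ x, u x ^ 2 ∂(mu (tr g (I m)⁻¹ m)) - (∫ x, u x ∂(mu (tr g (I m)⁻¹ m))) ^ 2 ≤
        ∫ x, (u x - c) ^ 2 ∂(mu (tr g (I m)⁻¹ m)) := by
      rw [e1]
      nlinarith [sq_nonneg (∫ x, u x ∂(mu (tr g (I m)⁻¹ m)) - c)]
    refine e3.trans ?_
    rw [tr_int hg hgc hm']
    refine mul_le_mul_of_nonneg_left ?_ hm'.le
    -- integrability on the whole space
    have hub : ∀ x, |u x - c| ≤ (|u 0| + |c| + 1) * (1 + ‖x‖) := by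
      intro x
      have h2 := lin_growth hu hu1 x
      have h3 := norm_nonneg x
      have h4 := abs_nonneg (u 0)
      have h5 := abs_nonneg c
      calc |u x - c| ≤ |u x| + |c| := abs_sub _ _
        _ ≤ |u 0| + ‖x‖ + |c| := by linarith
        _ ≤ (|u 0| + |c| + 1) * (1 + ‖x‖) := by nlinarith
    have hub2 : ∀ x, |u x| ≤ (|u 0| + |c| + 1) * (1 + ‖x‖) := by
      intro x
      have h2 := lin_growth hu hu1 x
      have h3 := norm_nonneg x
      have h4 := abs_nonneg (u 0)
      have h5 := abs_nonneg c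
      nlinarith
    obtain ⟨A, hA⟩ : ∃ A : ℝ, A = |u 0| + |c| + 1 := ⟨_, rfl⟩
    rw [← hA] at hub hub2
    have hA1 : 1 ≤ A := by
      have h4 := abs_nonneg (u 0)
      have h5 := abs_nonneg c
      rw [hA]; linarith
    have j1 : Integrable fun x => (u x - c) ^ 2 * g x := by
      refine hgr _ (A ^ 2) ((huc.sub continuous_const).pow 2) fun x => ?_
      rw [abs_pow, ← mul_pow]
      exact pow_le_pow_left₀ (abs_nonneg _) (hub x) 2
    have j2 : Integrable fun x => u x ^ 2 * g x := by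
      refine hgr _ (A ^ 2) (huc.pow 2) fun x => ?_
      rw [abs_pow, ← mul_pow]
      exact pow_le_pow_left₀ (abs_nonneg _) (hub2 x) 2
    have j3 : Integrable fun x => u x * g x := by
      refine hgr _ A huc fun x => (hub2 x).trans ?_
      have h3 := norm_nonneg x
      refine mul_le_mul_of_nonneg_left ?_ (by linarith)
      nlinarith
    have k1 : ∫ x in Metric.closedBall (0 : Eu κ) m, (u x - c) ^ 2 * g x ≤
        ∫ x, (u x - c) ^ 2 * g x :=
      setIntegral_le_integral j1 (Eventually.of_forall fun x =>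
        mul_nonneg (sq_nonneg _) (hg x).le)
    refine k1.trans ?_
    have k2 : ∫ x, (u x - c) ^ 2 * g x = (∫ x, u x ^ 2 * g x) - (∫ x, u x * g x) ^ 2 := by
      have e2 : ∀ x, (u x - c) ^ 2 * g x = u x ^ 2 * g x - 2 * c * (u x * g x) + c ^ 2 * g x :=
        fun x => by ring
      simp_rw [e2]
      rw [integral_add (f := fun x => u x ^ 2 * g x - 2 * c * (u x * g x))
        (j2.sub (j3.const_mul _)) (hgi.const_mul _),
        integral_sub j2 (j3.const_mul _), integral_const_mul, integral_const_mul, hg1, ← hc]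
      ring
    rw [k2]
    exact hD u hu hu1
  -- the limit
  have hfb : ∀ F : Eu κ → ℝ, Continuous F → HasCompactSupport F →
      Integrable fun x => F x * g x := by
    intro F hF hFs
    exact (hF.mul hgc).integrable_of_hasCompactSupport hFs.mul_right
  have hf2s : HasCompactSupport fun x => f x ^ 2 := by
    refine hfs.comp_left (g := fun y : ℝ => y ^ 2) ?_
    norm_num
  have hdf : Continuous fun x => ‖fderiv ℝ f x‖ ^ 2 :=
    ((hf.continuous_fderiv one_ne_zero).norm).pow 2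
  have hdfs : HasCompactSupport fun x => ‖fderiv ℝ f x‖ ^ 2 := by
    refine (hfs.fderiv ℝ).comp_left (g := fun y : (Eu κ →L[ℝ] ℝ) => ‖y‖ ^ 2) ?_
    simp
  have l1 := hlim _ (hfb _ (hf.continuous.pow 2) hf2s)
  have l2 := hlim _ (hfb _ hf.continuous hfs)
  have l3 := hlim _ (hfb _ hdf hdfs)
  have l4 := l1.sub (l2.pow 2)
  have l5 := ((hinv.mul_const D).const_mul C).mul l3
  rw [one_mul] at l5
  exact le_of_tendsto_of_tendsto l4 l5 hineq

/-- **job FS-EMP**, for the corrected statement -/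
theorem empc (h : S_EML) : S_EMPc := emp h

end Pool.Agent.Q151.EM
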