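import Pool.Agent.Q151.EM.Emp

/-!
# Project EM/FS (helper86): job FS-LPB, Lipschitz functions on `D` from the approximations
-/

set_option autoImplicit false

namespace Pool.Agent.Q151.EM

open MeasureTheory Set Filter Topology
open scoped ENNReal InnerProductSpace ContDiff
open Pool.Agent.H888R2.KT (LC)
open Pool.Agent.H212R2.KLS (mu Bdd)
open Pool.Agent.Q86.EM
open Pool.Agent.W695.KH (EV VV)
open Pool.Agent.Q86.FIB (Sp EK spl oo lp gT gZ vol)

/-- the normalised integrals in the product coordinates -/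
theorem norm_int {n : ℕ} (U : EK 1 n → ℝ) (hZ : 0 < ∫ y, Real.exp (-U y)) (G : EK 1 n → ℝ) :
    ∫ x, G ((spl 1 n).symm x) *
        Real.exp (-(onSp U x + Real.log (∫ y, Real.exp (-U y)))) ∂(vol 1 n) =
      (∫ y, G y * Real.exp (-U y)) / ∫ y, Real.exp (-U y) := by
  rw [← Pool.Agent.Q86.FIB.spl_int, ← integral_div]
  refine integral_congr_ae (Eventually.of_forall fun y => ?_)
  simp only [onSp]
  rw [ContinuousLinearEquiv.symm_apply_apply, neg_add, Real.exp_add, Real.exp_neg (Real.log _),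
    Real.exp_log hZ]
  ring

/-- **job FS-LPB** -/
theorem lpb (h1 : S_LMB) (h2 : S_MOL) (h3 : S_EML) : S_LPB := by
  obtain ⟨C, hC, H⟩ := h3
  refine ⟨max C 1, le_max_right _ _, ?_⟩
  intro n D hD D₀ A₀ hA₀ hyp
  have hDne : D.Nonempty := hD.int.mono interior_subset
  have hvol : 0 < volume D :=
    (isOpen_interior.measure_pos _ hD.int).trans_le (measure_mono interior_subset)
  have hvr : 0 < (volume D).toReal := ENNReal.toReal_pos hvol.ne' hD.cpt.measure_lt_top.ne
  -- the approximations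
  have hAj : ∀ j : ℕ, 0 < A₀ + j := fun j => by positivity
  choose U hU using fun j : ℕ => h2 (Fin 1 ⊕ Fin n) D hD.cpt hD.cvx hDne (A₀ + j) (hAj j)
  have hAt : Tendsto (fun j : ℕ => A₀ + (j : ℝ)) atTop atTop :=
    tendsto_atTop_add_const_left _ _ tendsto_natCast_atTop_atTop
  have hlmb := h1 (Fin 1 ⊕ Fin n) D hD.cpt hDne (fun j => A₀ + j) U hAt hAj hU
  have hZ := (hlmb (fun _ => 1) 1 0 measurable_const (fun x => by simp)).2
  have hZ' : Tendsto (fun j => ∫ x, Real.exp (-U j x)) atTop (𝓝 (volume D).toReal) := by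
    have e1 : ∫ x in D, (1 : ℝ) = (volume D).toReal := by
      rw [setIntegral_const]
      simp [Measure.real]
    rw [← e1]
    simpa only [one_mul] using hZ
  have hZpos : ∀ᶠ j in atTop, 0 < ∫ x, Real.exp (-U j x) :=
    hZ'.eventually (lt_mem_nhds hvr)
  -- Lipschitz functions
  have key : ∀ v : EK 1 n → ℝ, ContDiff ℝ 1 v → (∀ x, ‖fderiv ℝ v x‖ ≤ 1) → VV D v ≤ D₀ := by
    intro v hv hv1
    have hb : ∀ x, |v x| ≤ (|v 0| + 1) * (1 + ‖x‖) := by
      intro x
      have h4 := lin_growth hv hv1 x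
      have h5 := norm_nonneg x
      have h6 := abs_nonneg (v 0)
      nlinarith
    have g1 := (hlmb v (|v 0| + 1) 1 hv.continuous.measurable
      (fun x => by rw [pow_one]; exact hb x)).2
    have g2 := (hlmb (fun x => v x ^ 2) ((|v 0| + 1) ^ 2) 2 (hv.continuous.pow 2).measurable
      (fun x => by
        rw [abs_pow, ← mul_pow]
        exact pow_le_pow_left₀ (abs_nonneg _) (hb x) 2)).2
    have g3 := (g2.div hZ' hvr.ne').sub ((g1.div hZ' hvr.ne').pow 2)
    have e1 : VV D v = (∫ x in D, v x ^ 2) / (volume D).toReal -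
        ((∫ x in D, v x) / (volume D).toReal) ^ 2 := rfl
    rw [e1]
    refine le_of_tendsto g3 ?_
    filter_upwards [hZpos] with j hj
    have h4 := hyp (A₀ + j) (by have : (0 : ℝ) ≤ j := Nat.cast_nonneg j; linarith) (U j) (hU j) _
      rfl (fun x => v ((spl 1 n).symm x)) (hv.comp (spl 1 n).symm.contDiff) (fun x => by
        rw [Pool.Agent.Q86.FIB.grad_spl hv]
        have := hv1 ((spl 1 n).symm x)
        have h0 := norm_nonneg (fderiv ℝ v ((spl 1 n).symm x))
        nlinarith)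
    rw [norm_int (U j) hj (fun y => v y ^ 2), norm_int (U j) hj v] at h4
    exact h4
  have hD0 : 0 ≤ D₀ := by
    have h4 := key (fun _ => 0) contDiff_const (fun x => by simp)
    have e1 : VV D (fun _ : EK 1 n => (0 : ℝ)) = 0 := by
      unfold Pool.Agent.W695.KH.VV Pool.Agent.W695.KH.EV
      simp
    rw [e1] at h4
    exact h4
  -- Milman's theorem
  intro f hf
  have hLC := Pool.Agent.Q188.SB.LC_rr D hD.cpt hD.cvx hvol
  have hmass := Pool.Agent.Q188.SB.mass_rr D hD.cpt hvol
  have hm := hD.cpt.measurableSet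
  have h4 := H (Fin 1 ⊕ Fin n) (Pool.Agent.Q188.SB.rr D) hLC hmass D₀ (fun v hv hv1 => by
    rw [Pool.Agent.Q188.SB.int_rr D hm, Pool.Agent.Q188.SB.int_rr D hm]
    exact key v hv hv1) f hf
  rw [Pool.Agent.Q188.SB.int_rr D hm, Pool.Agent.Q188.SB.int_rr D hm,
    Pool.Agent.Q188.SB.int_rr D hm] at h4
  refine (show VV D f ≤ _ from h4).trans ?_
  have h5 : 0 ≤ EV D fun x => ‖fderiv ℝ f x‖ ^ 2 :=
    div_nonneg (integral_nonneg fun x => sq_nonneg _) hvr.le
  have h6 : C * D₀ ≤ max C 1 * D₀ := mul_le_mul_of_nonneg_right (le_max_left _ _) hD0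
  exact mul_le_mul_of_nonneg_right h6 h5

end Pool.Agent.Q151.EM
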