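import Pool.Agent.Q45.EM.StmC

set_option autoImplicit false

/-! Project EM, JOB SST. -/

open Polynomial TensorProduct

namespace Pool.Agent.Q151.EM

/-- The field case: a generalized eigenvector of order two is an eigenvector, up to the radical. -/
theorem field_case {E W : Type*} [Field E] [AddCommGroup W] [Module E W] [FiniteDimensional E W]
    (h2 : (2 : E) ≠ 0) (Φ : W →ₗ[E] W) (B : W →ₗ[E] W →ₗ[E] E) (hs : ∀ x y, B x y = B y x)
    (hB : ∀ x y, B (Φ x) (Φ y) = B x y) (α : E) (hα : α ≠ 0) (r : E[X])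
    (hχ : Φ.charpoly = (X - C α) ^ 2 * r) (hr : r.eval α ≠ 0) (hr' : r.eval α⁻¹ ≠ 0)
    (v : W) (hv : Φ (Φ v - α • v) = α • (Φ v - α • v)) (y : W) : B (Φ v - α • v) y = 0 := by
  obtain ⟨u, hu⟩ : ∃ u : W, u = Φ v - α • v := ⟨_, rfl⟩
  rw [← hu] at hv ⊢
  have hv' : Φ v = α • v + u := by rw [hu]; abel
  -- the functional `B u`
  have hf : ∀ y, B u (Φ y) = α⁻¹ * B u y := by
    intro y
    have h1 : α * B u (Φ y) = B u y := by
      rw [← hB u y, hv]
      simp
    rw [← h1, ← mul_assoc, inv_mul_cancel₀ hα, one_mul]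
  have hfg : ∀ (g : E[X]) (y : W), B u (aeval Φ g y) = g.eval α⁻¹ * B u y := by
    intro g y
    induction g using Polynomial.induction_on' with
    | add p q hp hq => rw [map_add, LinearMap.add_apply, map_add, hp, hq, eval_add, add_mul]
    | monomial n a =>
      rw [aeval_monomial, eval_monomial]
      have h1 : ∀ n : ℕ, B u ((Φ ^ n) y) = (α⁻¹) ^ n * B u y := by
        intro n
        induction n with
        | zero => simp
        | succ n ih => rw [pow_succ', Module.End.mul_apply, hf, ih, pow_succ']; ring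
      have h3 : (algebraMap E (Module.End E W) a * Φ ^ n) y = a • ((Φ ^ n) y) := by
        rw [Module.End.mul_apply, Module.algebraMap_end_apply]
      rw [h3, map_smul, h1, smul_eq_mul]
      ring
  have hCH : ∀ y, aeval Φ ((X - C α) ^ 2 * r) y = 0 := by
    intro y
    rw [← hχ, LinearMap.aeval_self_charpoly]
    rfl
  by_cases ha : α ^ 2 = 1
  · -- `α = α⁻¹`
    by_cases hu0 : u = 0
    · rw [hu0]; simp
    have huu : B u u = 0 := by
      have h1 := hB u v
      rw [hv, hv'] at h1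
      simp only [map_smul, LinearMap.smul_apply, map_add, smul_eq_mul] at h1
      have h3 : α * B u u = 0 := by linear_combination h1 - (B u v) * ha
      exact (mul_eq_zero.1 h3).resolve_left hα
    have huv : B u v = 0 := by
      have h1 := hB v v
      rw [hv'] at h1
      simp only [map_smul, LinearMap.smul_apply, map_add, LinearMap.add_apply, smul_eq_mul] at h1
      rw [hs v u, huu] at h1
      have h3 : (2 * α) * B u v = 0 := by linear_combination h1 - (B v v) * ha
      exact (mul_eq_zero.1 h3).resolve_left (mul_ne_zero h2 hα)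
    -- dimension
    have hroot : Φ.charpoly.rootMultiplicity α = 2 := by
      have hr0 : r ≠ 0 := by
        rintro rfl
        simp at hr
      rw [hχ, mul_comm, rootMultiplicity_mul_X_sub_C_pow hr0,
        rootMultiplicity_eq_zero (by rwa [IsRoot.def])]
    have hfin : Module.finrank E (Module.End.maxGenEigenspace Φ α) = 2 := by
      rw [LinearMap.finrank_maxGenEigenspace_eq, hroot]
    have hmem : ∀ z : W, Φ (Φ z - α • z) = α • (Φ z - α • z) → z ∈ Module.End.maxGenEigenspace Φ α := by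
      intro z hz
      rw [Module.End.mem_maxGenEigenspace]
      refine ⟨2, ?_⟩
      have h1 : ((Φ - α • (1 : Module.End E W)) ^ 2) z = Φ (Φ z - α • z) - α • (Φ z - α • z) := by
        rw [pow_two, Module.End.mul_apply]
        simp [LinearMap.sub_apply]
      rw [h1, hz, sub_self]
    have hvm := hmem v (by rw [← hu]; exact hv)
    have hum := hmem u (by
      have : Φ u - α • u = 0 := by rw [hv, sub_self]
      rw [this]; simp)
    have hli : LinearIndependent E ![(⟨u, hum⟩ : Module.End.maxGenEigenspace Φ α), ⟨v, hvm⟩] := by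
      rw [LinearIndependent.pair_iff]
      intro s t hst
      have h1 : s • u + t • v = 0 := by
        have := congrArg Subtype.val hst
        simpa using this
      have h3 : t • u = 0 := by
        have h4 : Φ (s • u + t • v) = α • (s • u + t • v) + t • u := by
          rw [map_add, map_smul, map_smul, hv, hv']
          module
        rw [h1] at h4
        simpa using h4.symm
      have ht : t = 0 := (smul_eq_zero.1 h3).resolve_right hu0
      rw [ht, zero_smul, add_zero] at h1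
      exact ⟨(smul_eq_zero.1 h1).resolve_right hu0, ht⟩
    have hspan := hli.span_eq_top_of_card_eq_finrank (by simp [hfin])
    have hz : ∀ z : Module.End.maxGenEigenspace Φ α, B u (z : W) = 0 := by
      intro z
      have hz' : z ∈ Submodule.span E (Set.range ![(⟨u, hum⟩ : Module.End.maxGenEigenspace Φ α), ⟨v, hvm⟩]) := by
        rw [hspan]; trivial
      induction hz' using Submodule.span_induction with
      | mem x hx =>
        obtain ⟨i, rfl⟩ := hx
        fin_cases i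
        · simpa using huu
        · simpa using huv
      | zero => simp
      | add x y _ _ hx hy => rw [Submodule.coe_add, map_add, hx, hy, add_zero]
      | smul a x _ hx => rw [Submodule.coe_smul, map_smul, hx, smul_zero]
    have h5 := hfg r y
    have h6 : aeval Φ r y ∈ Module.End.maxGenEigenspace Φ α := by
      apply hmem
      have h7 := hCH y
      rw [map_mul, Module.End.mul_apply, map_pow, map_sub, aeval_X, aeval_C, pow_two,
        Module.End.mul_apply] at h7
      simp only [LinearMap.sub_apply, Module.algebraMap_end_apply] at h7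
      exact sub_eq_zero.1 h7
    rw [hz ⟨_, h6⟩] at h5
    exact (mul_eq_zero.1 h5.symm).resolve_left hr'
  · have h5 := hfg ((X - C α) ^ 2 * r) y
    rw [hCH, map_zero, eval_mul, eval_pow, eval_sub, eval_X, eval_C] at h5
    refine (mul_eq_zero.1 h5.symm).resolve_left (mul_ne_zero (pow_ne_zero 2 ?_) hr')
    intro h6
    apply ha
    have h7 : α⁻¹ = α := sub_eq_zero.1 h6
    calc α ^ 2 = α * α := by ring
      _ = α⁻¹ * α := by rw [h7]
      _ = 1 := inv_mul_cancel₀ hα

/-- The shape of a square factor. -/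
theorem shape {S Q R : (ZMod 2)[X]} (hS : S.Separable) (hc : IsCoprime S (X - 1)) (hQ : Q.Monic)
    (hd : Q.natDegree ≠ 0) (h : Q ^ 2 * R ∣ (X - 1) ^ 2 * S) : Q = X - 1 ∧ IsCoprime R (X - 1) := by
  have hX : Irreducible (X - 1 : (ZMod 2)[X]) := by
    have := irreducible_X_sub_C (1 : ZMod 2)
    simpa using this
  have hXm : (X - 1 : (ZMod 2)[X]).Monic := by
    have := monic_X_sub_C (1 : ZMod 2)
    simpa using this
  have hSq := hS.squarefree
  have hS0 : S ≠ 0 := hS.ne_zero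
  -- an irreducible factor
  have key : ∀ g : (ZMod 2)[X], Irreducible g → g ∣ Q → Associated g (X - 1) := by
    intro g hg hgQ
    have h1 : g ^ 2 ∣ (X - 1) ^ 2 * S := (pow_dvd_pow_of_dvd hgQ 2).trans ((dvd_mul_right _ _).trans h)
    rcases hg.isCoprime_or_dvd (X - 1) with h3 | h3
    · exfalso
      have h4 : IsCoprime (g ^ 2) ((X - 1) ^ 2) := h3.pow
      have h5 : g ^ 2 ∣ S := h4.dvd_of_dvd_mul_left h1
      rw [pow_two] at h5
      exact hg.not_isUnit (hSq g h5)
    · exact hg.associated_of_dvd hX h3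
  have hQ0 : Q ≠ 0 := hQ.ne_zero
  have hQu : ¬ IsUnit Q := by
    intro hu
    exact hd (natDegree_eq_zero_of_isUnit hu)
  obtain ⟨g, hg, hgQ⟩ := WfDvdMonoid.exists_irreducible_factor hQu hQ0
  have h1 : (X - 1) ∣ Q := ((key g hg hgQ).symm.dvd).trans hgQ
  obtain ⟨T, hT⟩ := h1
  -- T is a unit
  have hTu : IsUnit T := by
    by_contra hTu
    have hT0 : T ≠ 0 := by
      rintro rfl
      rw [mul_zero] at hT
      exact hQ0 hT
    obtain ⟨g', hg', hgT⟩ := WfDvdMonoid.exists_irreducible_factor hTu hT0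
    have h3 : (X - 1) ∣ T := ((key g' hg' (hT ▸ hgT.mul_left _)).symm.dvd).trans hgT
    obtain ⟨T', hT'⟩ := h3
    have h4 : (X - 1) ^ 2 * (X - 1) ^ 2 ∣ (X - 1) ^ 2 * S := by
      refine dvd_trans ?_ h
      rw [hT, hT']
      exact ⟨T' ^ 2 * R, by ring⟩
    have h5 := (mul_dvd_mul_iff_left (pow_ne_zero 2 hX.ne_zero)).1 h4
    have h6 : (X - 1) ∣ S := (dvd_pow_self _ (by norm_num)).trans h5
    exact hX.not_isUnit (hc.isUnit_of_dvd' h6 dvd_rfl)
  have hQX : Q = X - 1 := by
    apply eq_of_monic_of_associated hQ hXm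
    rw [hT]
    exact associated_mul_unit_left _ _ hTu
  refine ⟨hQX, ?_⟩
  rw [hQX] at h
  have h7 : R ∣ S := (mul_dvd_mul_iff_left (pow_ne_zero 2 hX.ne_zero)).1 h
  exact hc.of_isCoprime_of_dvd_left h7

section
variable {V : Type} [AddCommGroup V] [Module ℤ_[2] V] [Module.Free ℤ_[2] V] [Module.Finite ℤ_[2] V]

instance : IsLocalizedModule (nonZeroDivisors ℤ_[2]) (TensorProduct.mk ℤ_[2] ℚ_[2] V 1) :=
  (isLocalizedModule_iff_isBaseChange (nonZeroDivisors ℤ_[2]) ℚ_[2] _).mpr
    (TensorProduct.isBaseChange ℤ_[2] V ℚ_[2])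

theorem one_tmul_eq_zero {x : V} (h : (1 : ℚ_[2]) ⊗ₜ[ℤ_[2]] x = 0) : x = 0 := by
  obtain ⟨c, hc⟩ := IsLocalizedModule.exists_of_eq (S := nonZeroDivisors ℤ_[2])
    (f := TensorProduct.mk ℤ_[2] ℚ_[2] V 1) (x₁ := x) (x₂ := 0) (by simpa using h)
  have hc0 : (c : ℤ_[2]) ≠ 0 := nonZeroDivisors.coe_ne_zero c
  have h1 : (c : ℤ_[2]) • x = 0 := by simpa [Submonoid.smul_def] using hc
  exact (smul_eq_zero.1 h1).resolve_left hc0

theorem rad (β : LinearMap.BilinForm ℤ_[2] V) (hn : ∀ x, (∀ y, β x y = 0) → x = 0)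
    (x : ℚ_[2] ⊗[ℤ_[2]] V)
    (h : ∀ y : V, LinearMap.BilinForm.baseChange ℚ_[2] β x (1 ⊗ₜ y) = 0) : x = 0 := by
  obtain ⟨⟨x0, c⟩, hx⟩ := IsLocalizedModule.surj (nonZeroDivisors ℤ_[2])
    (TensorProduct.mk ℤ_[2] ℚ_[2] V 1) x
  have hc0 : (c : ℤ_[2]) ≠ 0 := nonZeroDivisors.coe_ne_zero c
  have hx' : (c : ℤ_[2]) • x = (1 : ℚ_[2]) ⊗ₜ[ℤ_[2]] x0 := by simpa [Submonoid.smul_def] using hx
  have hx'' : (algebraMap ℤ_[2] ℚ_[2] c) • x = (1 : ℚ_[2]) ⊗ₜ[ℤ_[2]] x0 := by
    rw [← hx', algebraMap_smul]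
  have h0 : x0 = 0 := by
    apply hn
    intro y
    have h1 : LinearMap.BilinForm.baseChange ℚ_[2] β ((1 : ℚ_[2]) ⊗ₜ[ℤ_[2]] x0) (1 ⊗ₜ y) = 0 := by
      rw [← hx'', map_smul, LinearMap.smul_apply, h y, smul_zero]
    rw [LinearMap.BilinForm.baseChange_tmul, one_mul, Algebra.smul_def, mul_one] at h1
    exact (map_eq_zero_iff _ (IsFractionRing.injective ℤ_[2] ℚ_[2])).1 h1
  rw [h0, tmul_zero] at hx''
  refine (smul_eq_zero.1 hx'').resolve_left ?_
  exact fun h3 => hc0 ((map_eq_zero_iff _ (IsFractionRing.injective ℤ_[2] ℚ_[2])).1 h3)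

theorem aeval_baseChange (φ : V →ₗ[ℤ_[2]] V) (p : ℤ_[2][X]) (v : V) :
    aeval (φ.baseChange ℚ_[2]) (p.map (algebraMap ℤ_[2] ℚ_[2])) ((1 : ℚ_[2]) ⊗ₜ[ℤ_[2]] v) =
      1 ⊗ₜ (aeval φ p v) := by
  rw [aeval_map_algebraMap]
  have h := Polynomial.aeval_algHom_apply (Module.End.baseChangeHom ℤ_[2] ℚ_[2] V) φ p
  have h1 : (Module.End.baseChangeHom ℤ_[2] ℚ_[2] V) φ = φ.baseChange ℚ_[2] := rfl
  rw [h1] at h
  rw [h]
  rfl

end

theorem isUnit_of_toZMod {a : ℤ_[2]} (h : PadicInt.toZMod a ≠ 0) : IsUnit a := by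
  by_contra hu
  apply h
  rw [← RingHom.mem_ker, PadicInt.ker_toZMod]
  exact (IsLocalRing.mem_maximalIdeal _).2 hu

theorem main : Pool.Agent.Q45.EM.S_SST := by
  intro V _ _ _ _ φ S hS hSc hχ β hs hn hinv p v hp
  by_contra hpv
  have hinj := IsFractionRing.injective ℤ_[2] ℚ_[2]
  obtain ⟨Φ, hΦ⟩ : ∃ Φ, Φ = φ.baseChange ℚ_[2] := ⟨_, rfl⟩
  obtain ⟨w, hw⟩ : ∃ w : ℚ_[2] ⊗[ℤ_[2]] V, w = 1 ⊗ₜ v := ⟨_, rfl⟩
  obtain ⟨P, hP⟩ : ∃ P, P = p.map (algebraMap ℤ_[2] ℚ_[2]) := ⟨_, rfl⟩
  have hPw : aeval Φ P w ≠ 0 := by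
    rw [hΦ, hP, hw, aeval_baseChange]
    intro h
    exact hpv (one_tmul_eq_zero h)
  have hP2w : aeval Φ (P ^ 2) w = 0 := by
    rw [pow_two, map_mul, Module.End.mul_apply, hΦ, hP, hw, aeval_baseChange, aeval_baseChange, hp,
      tmul_zero]
  have hχE : Φ.charpoly = φ.charpoly.map (algebraMap ℤ_[2] ℚ_[2]) := by
    rw [hΦ, LinearMap.charpoly_baseChange]
  -- the annihilator of `w`
  let I : Ideal ℚ_[2][X] :=
    { carrier := {g | aeval Φ g w = 0}
      add_mem' := fun {a b} ha hb => by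
        change aeval Φ (a + b) w = 0
        have ha : aeval Φ a w = 0 := ha
        have hb : aeval Φ b w = 0 := hb
        rw [map_add, LinearMap.add_apply, ha, hb, add_zero]
      zero_mem' := by simp
      smul_mem' := fun c x hx => by
        change aeval Φ (c * x) w = 0
        have hx : aeval Φ x w = 0 := hx
        rw [map_mul, Module.End.mul_apply, hx, map_zero] }
  have hI : ∀ g, g ∈ I ↔ aeval Φ g w = 0 := fun g => Iff.rfl
  obtain ⟨μ, hμ⟩ : ∃ μ, μ = Submodule.IsPrincipal.generator I := ⟨_, rfl⟩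
  have hgen : ∀ g, aeval Φ g w = 0 ↔ μ ∣ g := by
    intro g
    rw [← hI, hμ]
    exact Submodule.IsPrincipal.mem_iff_generator_dvd I
  have hμχ : μ ∣ Φ.charpoly := by
    rw [← hgen, LinearMap.aeval_self_charpoly]
    rfl
  have hχ0 : Φ.charpoly ≠ 0 := (LinearMap.charpoly_monic Φ).ne_zero
  have hμ0 : μ ≠ 0 := ne_zero_of_dvd_ne_zero hχ0 hμχ
  have hnsq : ¬ Squarefree μ := by
    intro hsq
    exact hPw ((hgen P).2 ((hsq.dvd_pow_iff_dvd (by norm_num)).1 ((hgen _).1 hP2w)))
  obtain ⟨x, hxμ, hxu⟩ : ∃ x, x * x ∣ μ ∧ ¬ IsUnit x := by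
    by_contra hcon
    push Not at hcon
    exact hnsq fun x hx => hcon x hx
  have hx0 : x ≠ 0 := by
    rintro rfl
    rw [mul_zero] at hxμ
    exact hμ0 (zero_dvd_iff.1 hxμ)
  obtain ⟨q, hq⟩ : ∃ q, q = x * C (x.leadingCoeff)⁻¹ := ⟨_, rfl⟩
  have hqm : q.Monic := by rw [hq]; exact monic_mul_leadingCoeff_inv hx0
  have hqx : Associated q x := by
    rw [hq]
    refine associated_mul_unit_left _ _ ?_
    rw [isUnit_C, isUnit_iff_ne_zero]
    exact inv_ne_zero (leadingCoeff_ne_zero.2 hx0)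
  have hqμ : q * q ∣ μ := (hqx.mul_mul hqx).dvd.trans hxμ
  have hqd : q.natDegree ≠ 0 := by
    intro h
    apply hxu
    refine hqx.isUnit (isUnit_iff_degree_eq_zero.2 ?_)
    rw [degree_eq_natDegree hqm.ne_zero, h]
    rfl
  obtain ⟨g, hg⟩ := hqμ
  -- Gauss
  have hmon := LinearMap.charpoly_monic φ
  have hqχ : q ∣ φ.charpoly.map (algebraMap ℤ_[2] ℚ_[2]) := by
    rw [← hχE]
    exact (Dvd.intro _ rfl : q ∣ q * (q * g)).trans (by rw [← mul_assoc, ← hg]; exact hμχ)
  obtain ⟨q0, hq0⟩ := IsIntegrallyClosed.eq_map_mul_C_of_dvd ℚ_[2] hmon hqχ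
  rw [hqm.leadingCoeff, C_1, mul_one] at hq0
  have hq0m : q0.Monic := by
    rw [hinj.monic_map_iff, hq0]; exact hqm
  have hq0d : q0 ^ 2 ∣ φ.charpoly := by
    refine Monic.dvd_of_fraction_map_dvd_fraction_map (K := ℚ_[2]) hmon (hq0m.pow 2) ?_
    rw [Polynomial.map_pow, hq0, ← hχE]
    exact (Dvd.intro g (by rw [hg, pow_two])).trans hμχ
  obtain ⟨r0, hr0⟩ := hq0d
  -- the shape
  have hsh := shape (Q := q0.map PadicInt.toZMod) (R := r0.map PadicInt.toZMod) hS hSc (hq0m.map _)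
    (by rw [hq0m.natDegree_map, ← hq0m.natDegree_map (algebraMap ℤ_[2] ℚ_[2]), hq0]; exact hqd)
    (by rw [← Polynomial.map_pow, ← Polynomial.map_mul, ← hr0]; exact hχ)
  obtain ⟨h1, h2⟩ := hsh
  have hX1 : (X - 1 : (ZMod 2)[X]).natDegree = 1 := by
    have := natDegree_X_sub_C (1 : ZMod 2)
    simpa using this
  have hd1 : q0.natDegree = 1 := by
    rw [← hq0m.natDegree_map (PadicInt.toZMod (p := 2)), h1, hX1]
  have hq0X := hq0m.eq_X_add_C hd1
  obtain ⟨α, hα⟩ : ∃ α, α = -(q0.coeff 0) := ⟨_, rfl⟩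
  have hq0X' : q0 = X - C α := by rw [hα, hq0X]; simp
  have hα1 : PadicInt.toZMod α = 1 := by
    rw [hq0X', Polynomial.map_sub, map_X, map_C] at h1
    have h3 := congrArg (fun f => f.coeff 0) h1
    simp at h3
    simpa using h3
  have hαu : IsUnit α := isUnit_of_toZMod (by rw [hα1]; exact one_ne_zero)
  obtain ⟨α', hα'⟩ := hαu.exists_right_inv
  have hα'1 : PadicInt.toZMod α' = 1 := by
    have := congrArg (PadicInt.toZMod (p := 2)) hα'
    rwa [map_mul, hα1, one_mul, map_one] at this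
  have hr1 : (r0.map (PadicInt.toZMod (p := 2))).eval 1 ≠ 0 := by
    intro h
    obtain ⟨a, b, hab⟩ := h2
    have h3 := congrArg (fun f => f.eval 1) hab
    simp [h] at h3
  have hrr : ∀ γ : ℤ_[2], PadicInt.toZMod γ = 1 →
      (r0.map (algebraMap ℤ_[2] ℚ_[2])).eval (algebraMap ℤ_[2] ℚ_[2] γ) ≠ 0 := by
    intro γ hγ h
    rw [eval_map_algebraMap, aeval_algebraMap_apply, map_eq_zero_iff _ hinj] at h
    apply hr1
    rw [← hγ, eval_map, eval₂_at_apply]
    rw [coe_aeval_eq_eval] at h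
    rw [h, map_zero]
  have hqE : q = X - C (algebraMap ℤ_[2] ℚ_[2] α) := by
    rw [← hq0, hq0X', Polynomial.map_sub, map_X, map_C]
  have hα0 : algebraMap ℤ_[2] ℚ_[2] α ≠ 0 := by
    intro h
    rw [map_eq_zero_iff _ hinj] at h
    rw [h, map_zero] at hα1
    exact zero_ne_one hα1
  have hαinv : (algebraMap ℤ_[2] ℚ_[2] α)⁻¹ = algebraMap ℤ_[2] ℚ_[2] α' := by
    apply inv_eq_of_mul_eq_one_right
    rw [← map_mul, hα', map_one]
  -- the vector
  obtain ⟨v', hv'⟩ : ∃ v', v' = aeval Φ g w := ⟨_, rfl⟩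
  have haq : ∀ z, aeval Φ q z = Φ z - (algebraMap ℤ_[2] ℚ_[2] α) • z := by
    intro z
    rw [hqE, map_sub, aeval_X, aeval_C, LinearMap.sub_apply, Module.algebraMap_end_apply]
  have hu : aeval Φ q v' ≠ 0 := by
    rw [hv', ← Module.End.mul_apply, ← map_mul]
    intro h
    rw [hgen, hg] at h
    have hg0 : g ≠ 0 := by
      rintro rfl
      rw [mul_zero] at hg
      exact hμ0 hg
    have h4 : q * g ≠ 0 := mul_ne_zero hqm.ne_zero hg0
    have h5 : q * (q * g) ∣ 1 * (q * g) := by rwa [one_mul, ← mul_assoc]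
    have h6 := (mul_dvd_mul_iff_right h4).1 h5
    exact hqd (natDegree_eq_zero_of_isUnit (isUnit_of_dvd_one h6))
  have huu : aeval Φ q (aeval Φ q v') = 0 := by
    rw [hv', ← Module.End.mul_apply, ← Module.End.mul_apply, ← map_mul, ← map_mul, hgen, hg]
  let βb : LinearMap.BilinForm ℤ_[2] V := β
  have hsym : ∀ x y, LinearMap.BilinForm.baseChange ℚ_[2] βb x y =
      LinearMap.BilinForm.baseChange ℚ_[2] βb y x := by
    intro x y
    induction x with
    | zero => simp
    | add x1 x2 h1 h2 => rw [map_add, LinearMap.add_apply, h1, h2, map_add]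
    | tmul a x =>
      induction y with
      | zero => simp
      | add y1 y2 h1 h2 => rw [map_add, h1, h2, map_add, LinearMap.add_apply]
      | tmul b y =>
        rw [LinearMap.BilinForm.baseChange_tmul, LinearMap.BilinForm.baseChange_tmul, mul_comm b a]
        rw [show βb x y = βb y x from hs x y]
  have hinvE : ∀ x y, LinearMap.BilinForm.baseChange ℚ_[2] βb (Φ x) (Φ y) =
      LinearMap.BilinForm.baseChange ℚ_[2] βb x y := by
    intro x y
    rw [hΦ]
    induction x with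
    | zero => simp
    | add x1 x2 h1 h2 =>
      rw [map_add, map_add, LinearMap.add_apply, h1, h2, map_add, LinearMap.add_apply]
    | tmul a x =>
      induction y with
      | zero => simp
      | add y1 y2 h1 h2 => rw [map_add, map_add, h1, h2, map_add]
      | tmul b y =>
        rw [LinearMap.baseChange_tmul, LinearMap.baseChange_tmul, LinearMap.BilinForm.baseChange_tmul,
          LinearMap.BilinForm.baseChange_tmul]
        rw [show βb (φ x) (φ y) = βb x y from hinv x y]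
  apply hu
  apply rad βb hn
  intro y
  rw [haq]
  refine field_case (by norm_num) Φ (LinearMap.BilinForm.baseChange ℚ_[2] βb) hsym hinvE
    (algebraMap ℤ_[2] ℚ_[2] α) hα0 (r0.map (algebraMap ℤ_[2] ℚ_[2])) ?_ (hrr α hα1) ?_ v' ?_ _
  · rw [hχE, hr0, Polynomial.map_mul, Polynomial.map_pow, hq0, hqE]
  · rw [hαinv]; exact hrr α' hα'1
  · rw [haq, haq] at huu
    exact sub_eq_zero.1 huu

end Pool.Agent.Q151.EM
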