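import Pool.Agent.Q86.EM.Stm2

/-!
# Project EM/FS (helper86): job FS-SLG, geometry of the sections
-/

set_option autoImplicit false

namespace Pool.Agent.Q151.EM

open MeasureTheory Set Filter Topology
open Pool.Agent.Q86.EM
open Pool.Agent.Q86.FIB (Sp EK spl oo lp)

section

variable {n : ℕ}

/-- the fibre coordinates -/
noncomputable def zc (x : EK 1 n) : Eu (Fin n) := (lp n).symm (spl 1 n x).2

theorem oo_eq (p : Sp 1) : oo (p 0) = p := by
  funext i
  rw [Subsingleton.elim i 0]
  rfl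

theorem pt_zc (x : EK 1 n) : pt n (tc x) (zc x) = x := by
  unfold pt tc zc
  rw [ContinuousLinearEquiv.apply_symm_apply, oo_eq]
  exact (spl 1 n).symm_apply_apply x

theorem tc_pt (t : ℝ) (z : Eu (Fin n)) : tc (pt n t z) = t := by
  unfold pt tc
  rw [ContinuousLinearEquiv.apply_symm_apply]
  rfl

theorem pt_cont : Continuous fun p : ℝ × Eu (Fin n) => pt n p.1 p.2 := by
  unfold pt
  refine (spl 1 n).symm.continuous.comp (Continuous.prodMk ?_ ((lp n).continuous.comp
    continuous_snd))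
  exact continuous_pi fun _ => continuous_fst

theorem pt_cont_z (t : ℝ) : Continuous fun z : Eu (Fin n) => pt n t z :=
  pt_cont.comp (Continuous.prodMk continuous_const continuous_id)

theorem tc_cont : Continuous (tc : EK 1 n → ℝ) :=
  (continuous_apply 0).comp (continuous_fst.comp (spl 1 n).continuous)

theorem zc_cont : Continuous (zc : EK 1 n → Eu (Fin n)) :=
  (lp n).symm.continuous.comp (continuous_snd.comp (spl 1 n).continuous)

theorem tc_comb (a b : ℝ) (x y : EK 1 n) : tc (a • x + b • y) = a * tc x + b * tc y := by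
  unfold tc
  rw [map_add, map_smul, map_smul]
  simp

theorem zc_comb (a b : ℝ) (x y : EK 1 n) : zc (a • x + b • y) = a • zc x + b • zc y := by
  unfold zc
  rw [map_add, map_smul, map_smul]
  simp [Prod.snd_add, Prod.smul_snd]

theorem pt_comb (a b t s : ℝ) (z w : Eu (Fin n)) :
    a • pt n t z + b • pt n s w = pt n (a * t + b * s) (a • z + b • w) := by
  unfold pt
  rw [← map_smul, ← map_smul, ← map_add]
  congr 1

theorem sl_eq (D : Set (EK 1 n)) (t : ℝ) : sl D t = (fun z => pt n t z) ⁻¹' D := rfl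

/-- over every inner value of the first coordinate there is an interior point -/
theorem exists_int {D : Set (EK 1 n)} (hD : CB D) {a b : ℝ} (h0 : ∃ x ∈ D, tc x < a)
    (h1 : ∃ x ∈ D, b < tc x) {t : ℝ} (ht : t ∈ Icc a b) :
    ∃ z : Eu (Fin n), pt n t z ∈ interior D := by
  obtain ⟨p, hp⟩ := hD.int
  obtain ⟨q₀, hq₀, hq₀a⟩ := h0
  obtain ⟨q₁, hq₁, hq₁b⟩ := h1
  obtain ⟨hta, htb⟩ := ht
  have key : ∀ q ∈ D, ∀ s : ℝ, 0 < s → s < 1 → (1 - s) * tc p + s * tc q = t →
      ∃ z : Eu (Fin n), pt n t z ∈ interior D := by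
    intro q hq s hs0 hs1 hst
    have h2 := hD.cvx.openSegment_interior_self_subset_interior hp hq
      ⟨1 - s, s, by linarith, hs0, by ring, rfl⟩
    refine ⟨zc ((1 - s) • p + s • q), ?_⟩
    rw [← hst, ← tc_comb, pt_zc]
    exact h2
  rcases lt_trichotomy (tc p) t with h | h | h
  · have hd : 0 < tc q₁ - tc p := by linarith
    refine key q₁ hq₁ ((t - tc p) / (tc q₁ - tc p)) (div_pos (by linarith) hd) ?_ ?_
    · rw [div_lt_one hd]; linarith
    · field_simp
      ring
  · refine ⟨zc p, ?_⟩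
    rw [← h, pt_zc]
    exact hp
  · have hd : 0 < tc p - tc q₀ := by linarith
    refine key q₀ hq₀ ((tc p - t) / (tc p - tc q₀)) (div_pos (by linarith) hd) ?_ ?_
    · rw [div_lt_one hd]; linarith
    · field_simp
      ring

theorem sl_compact {D : Set (EK 1 n)} (hD : IsCompact D) (t : ℝ) : IsCompact (sl D t) := by
  have h1 : IsCompact (zc '' D) := hD.image zc_cont
  refine h1.of_isClosed_subset (hD.isClosed.preimage (pt_cont_z t)) fun z hz => ?_
  refine ⟨pt n t z, hz, ?_⟩
  unfold zc pt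
  rw [ContinuousLinearEquiv.apply_symm_apply]
  exact (lp n).symm_apply_apply z

theorem sl_convex {D : Set (EK 1 n)} (hD : Convex ℝ D) (t : ℝ) : Convex ℝ (sl D t) := by
  intro z hz w hw a b ha hb hab
  have h := hD hz hw ha hb hab
  rw [pt_comb] at h
  have e : a * t + b * t = t := by rw [← add_mul, hab, one_mul]
  rw [e] at h
  exact h

theorem int_int {D : Set (EK 1 n)} {t : ℝ} {z : Eu (Fin n)} (hz : pt n t z ∈ interior D) :
    z ∈ interior (sl D t) := by
  have h1 : IsOpen ((fun z => pt n t z) ⁻¹' interior D) := isOpen_interior.preimage (pt_cont_z t)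
  have h2 : (fun z => pt n t z) ⁻¹' interior D ⊆ sl D t := fun w hw => interior_subset (s := D) hw
  exact interior_maximal h2 h1 hz

theorem int_int' {D : Set (EK 1 n)} (hD : Convex ℝ D) {t : ℝ} {z p : Eu (Fin n)}
    (hp : pt n t p ∈ interior D) (hz : z ∈ interior (sl D t)) : pt n t z ∈ interior D := by
  -- a point beyond `z`
  have hc : ContinuousAt (fun ε : ℝ => z + ε • (z - p)) 0 := by fun_prop
  have h1 : ∀ᶠ ε : ℝ in 𝓝 0, z + ε • (z - p) ∈ sl D t := by
    have h2 : sl D t ∈ 𝓝 (z + (0 : ℝ) • (z - p)) := by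
      rw [zero_smul, add_zero]
      exact mem_interior_iff_mem_nhds.1 hz
    exact hc h2
  obtain ⟨δ, hδ, h3⟩ := Metric.eventually_nhds_iff.1 h1
  have h4 := h3 (y := δ / 2) (by
    rw [Real.dist_eq, sub_zero, abs_of_pos (by linarith)]
    linarith)
  have h5 : (1 + δ / 2) ≠ 0 := by positivity
  have h6 := hD.openSegment_interior_self_subset_interior hp h4
    ⟨δ / 2 / (1 + δ / 2), 1 / (1 + δ / 2), by positivity, by positivity, by field_simp; ring, rfl⟩
  rw [pt_comb] at h6
  have e1 : δ / 2 / (1 + δ / 2) * t + 1 / (1 + δ / 2) * t = t := by field_simp; ring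
  have e2 : (δ / 2 / (1 + δ / 2)) • p + (1 / (1 + δ / 2)) • (z + (δ / 2) • (z - p)) = z := by
    rw [smul_add, smul_smul, smul_sub]
    have e3 : δ / 2 / (1 + δ / 2) = 1 / (1 + δ / 2) * (δ / 2) := by ring
    have e4 : (1 / (1 + δ / 2)) + 1 / (1 + δ / 2) * (δ / 2) = 1 := by field_simp
    rw [e3]
    have e5 : (1 / (1 + δ / 2) * (δ / 2)) • p + ((1 / (1 + δ / 2)) • z +
        ((1 / (1 + δ / 2) * (δ / 2)) • z - (1 / (1 + δ / 2) * (δ / 2)) • p)) =
        ((1 / (1 + δ / 2)) + 1 / (1 + δ / 2) * (δ / 2)) • z := by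
      rw [add_smul]; abel
    rw [e5, e4, one_smul]
  rw [e1, e2] at h6
  exact h6

end

/-- **job FS-SLG** -/
theorem slg : S_SLG := by
  intro n D hD a b hab h0 h1
  refine ⟨fun t ht => ?_, ?_⟩
  · obtain ⟨p, hp⟩ := exists_int hD h0 h1 ht
    exact ⟨⟨sl_compact hD.cpt t, sl_convex hD.cvx t, ⟨p, int_int hp⟩⟩,
      fun z hz => int_int' hD.cvx hp hz⟩
  · have hK : IsCompact (Icc a b) := isCompact_Icc
    refine hK.induction_on (p := fun s => ∃ v : ℝ, 0 < v ∧ ∀ t ∈ s, v ≤ (volume (sl D t)).toReal)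
      ⟨1, one_pos, fun t ht => absurd ht (notMem_empty t)⟩ ?_ ?_ ?_
    · rintro s s' hss ⟨v, hv, h⟩
      exact ⟨v, hv, fun t ht => h t (hss ht)⟩
    · rintro s s' ⟨v, hv, h⟩ ⟨v', hv', h'⟩
      refine ⟨min v v', lt_min hv hv', fun t ht => ?_⟩
      rcases ht with ht | ht
      · exact (min_le_left _ _).trans (h t ht)
      · exact (min_le_right _ _).trans (h' t ht)
    · intro t ht
      obtain ⟨p, hp⟩ := exists_int hD h0 h1 ht
      have h2 : IsOpen ((fun q : ℝ × Eu (Fin n) => pt n q.1 q.2) ⁻¹' interior D) :=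
        isOpen_interior.preimage pt_cont
      have h3 : ((t, p) : ℝ × Eu (Fin n)) ∈
          (fun q : ℝ × Eu (Fin n) => pt n q.1 q.2) ⁻¹' interior D := hp
      obtain ⟨δ, hδ, h4⟩ := Metric.isOpen_iff.1 h2 _ h3
      refine ⟨Metric.ball t δ, mem_nhdsWithin_of_mem_nhds (Metric.ball_mem_nhds t hδ),
        (volume (Metric.ball p δ)).toReal, ?_, fun s hs => ?_⟩
      · exact ENNReal.toReal_pos (Metric.measure_ball_pos volume p hδ).ne'
          measure_ball_lt_top.ne
      · refine ENNReal.toReal_mono (sl_compact hD.cpt s).measure_lt_top.ne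
          (measure_mono fun z hz => ?_)
        have h5 : ((s, z) : ℝ × Eu (Fin n)) ∈ Metric.ball ((t, p) : ℝ × Eu (Fin n)) δ := by
          rw [Metric.mem_ball, Prod.dist_eq]
          exact max_lt hs hz
        exact interior_subset (s := D) (h4 h5)

end Pool.Agent.Q151.EM
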